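import Mathlib

/-!
Identities in an arbitrary alternative ring (nonassociative, no unit): the Kleinfeld function is
alternating, and the consequences of that used in `Torsion.lean`.
-/

set_option autoImplicit false
set_option linter.unusedSimpArgs false

namespace H70alt

/-- A nonassociative ring is alternative if all associators `(x,x,y)` and `(y,x,x)` vanish. -/
structure IsAlt (A : Type*) [NonUnitalNonAssocRing A] : Prop where
  left : ∀ x y : A, associator x x y = 0
  right : ∀ x y : A, associator y x x = 0

section basic
variable {A : Type*} [NonUnitalNonAssocRing A]

/-- commutator -/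
def cm (x y : A) : A := x * y - y * x
/-- Jordan product -/
def jp (x y : A) : A := x * y + y * x
/-- Kleinfeld function -/
def kf (w x y z : A) : A :=
  associator (w * x) y z - x * associator w y z - associator x y z * w

theorem as_add_1 (x x' y z : A) :
    associator (x + x') y z = associator x y z + associator x' y z := by
  simp only [associator_apply, mul_add, add_mul]; abel
theorem as_add_2 (x y y' z : A) :
    associator x (y + y') z = associator x y z + associator x y' z := by
  simp only [associator_apply, mul_add, add_mul]; abel
theorem as_add_3 (x y z z' : A) :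
    associator x y (z + z') = associator x y z + associator x y z' := by
  simp only [associator_apply, mul_add, add_mul]; abel
theorem as_sub_1 (x x' y z : A) :
    associator (x - x') y z = associator x y z - associator x' y z := by
  simp only [associator_apply, mul_sub, sub_mul]; abel
theorem as_sub_2 (x y y' z : A) :
    associator x (y - y') z = associator x y z - associator x y' z := by
  simp only [associator_apply, mul_sub, sub_mul]; abel
theorem as_sub_3 (x y z z' : A) :
    associator x y (z - z') = associator x y z - associator x y z' := by
  simp only [associator_apply, mul_sub, sub_mul]; abel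

theorem jp_comm (x y : A) : jp x y = jp y x := by simp only [jp]; abel
theorem jp_add_left (x x' y : A) : jp (x + x') y = jp x y + jp x' y := by
  simp only [jp, mul_add, add_mul]; abel
theorem jp_add_right (x y y' : A) : jp x (y + y') = jp x y + jp x y' := by
  simp only [jp, mul_add, add_mul]; abel
theorem jp_sub_left (x x' y : A) : jp (x - x') y = jp x y - jp x' y := by
  simp only [jp, mul_sub, sub_mul]; abel
theorem jp_sub_right (x y y' : A) : jp x (y - y') = jp x y - jp x y' := by
  simp only [jp, mul_sub, sub_mul]; abel
theorem jp_neg_left (x y : A) : jp (-x) y = -jp x y := by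
  simp only [jp, mul_neg, neg_mul]; abel
theorem jp_neg_right (x y : A) : jp x (-y) = -jp x y := by
  simp only [jp, mul_neg, neg_mul]; abel
theorem jp_zero_left (y : A) : jp 0 y = 0 := by simp [jp]
theorem jp_zero_right (y : A) : jp y 0 = 0 := by simp [jp]
theorem jp_zsmul_left (n : ℤ) (x y : A) : jp (n • x) y = n • jp x y := by
  simp only [jp, smul_mul_assoc, mul_smul_comm, smul_add]
theorem jp_zsmul_right (n : ℤ) (x y : A) : jp x (n • y) = n • jp x y := by
  simp only [jp, smul_mul_assoc, mul_smul_comm, smul_add]

theorem cm_anti (x y : A) : cm x y = -cm y x := by simp only [cm]; abel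
theorem cm_add_left (x x' y : A) : cm (x + x') y = cm x y + cm x' y := by
  simp only [cm, mul_add, add_mul]; abel
theorem cm_add_right (x y y' : A) : cm x (y + y') = cm x y + cm x y' := by
  simp only [cm, mul_add, add_mul]; abel
theorem cm_neg_left (x y : A) : cm (-x) y = -cm x y := by
  simp only [cm, mul_neg, neg_mul]; abel
theorem cm_neg_right (x y : A) : cm x (-y) = -cm x y := by
  simp only [cm, mul_neg, neg_mul]; abel
end basic

section alt
variable {A : Type*} [NonUnitalNonAssocRing A] (hA : IsAlt A)
include hA

theorem as12 (x y z : A) : associator y x z = -associator x y z := by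
  have h := hA.left (x + y) z
  rw [as_add_1, as_add_2, as_add_2, hA.left, hA.left] at h
  rw [zero_add, add_zero] at h
  exact (neg_eq_of_add_eq_zero_right h).symm

theorem as23 (x y z : A) : associator x z y = -associator x y z := by
  have h := hA.right (y + z) x
  rw [as_add_2, as_add_3, as_add_3, hA.right, hA.right] at h
  rw [zero_add, add_zero] at h
  exact (neg_eq_of_add_eq_zero_right h).symm

theorem as_cyc (x y z : A) : associator y z x = associator x y z := by
  rw [as23 hA y x z, as12 hA x y z, neg_neg]

theorem as13 (x y z : A) : associator z y x = -associator x y z := by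
  rw [as23 hA z x y, as_cyc hA y z x, as_cyc hA x y z]

theorem kf34 (w x y z : A) : kf w x z y = -kf w x y z := by
  simp only [kf, as23 hA _ y z, mul_neg, neg_mul]; abel

/-- Kleinfeld's formula. -/
theorem kf_sum (w x y z : A) : kf w x y z - kf x y z w + kf y z w x =
    cm w (associator x y z) - cm x (associator w y z) + cm y (associator w x z)
      - cm z (associator w x y) := by
  have h := associator_cocycle w x y z
  have c1 : associator y z w = associator w y z := as_cyc hA w y z
  have c2 : associator x z w = associator w x z := as_cyc hA w x z
  have c3 : associator z w x = associator w x z := by rw [as_cyc hA x z w, c2]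
  have c4 : associator y w x = associator w x y := by rw [as_cyc hA x y w, as_cyc hA w x y]
  have e1 : associator (w * x) y z = kf w x y z + x * associator w y z + associator x y z * w := by
    simp only [kf]; abel
  have e2 : associator w (x * y) z = kf x y z w + y * associator x z w + associator y z w * x := by
    rw [← as_cyc hA w (x * y) z]; simp only [kf]; abel
  have e3 : associator w x (y * z) = kf y z w x + z * associator y w x + associator z w x * y := by
    rw [← as_cyc hA w x (y * z), ← as_cyc hA x (y * z) w]; simp only [kf]; abel
  rw [e1, e2, e3, c1, c2, c3, c4] at h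
  rw [← sub_eq_zero, ← neg_eq_zero, ← h]
  simp only [cm]
  abel

theorem kf_cyc' (w x y z : A) : kf z w x y = -kf w x y z := by
  have h1 := kf_sum hA w x y z
  have h2 := kf_sum hA x y z w
  have c1 : associator y z w = associator w y z := as_cyc hA w y z
  have c2 : associator x z w = associator w x z := as_cyc hA w x z
  have c3 : associator x y w = associator w x y := as_cyc hA w x y
  rw [c1, c2, c3] at h2
  have h3 : kf w x y z + kf z w x y = 0 := by
    have e : kf w x y z + kf z w x y =
      kf w x y z - kf x y z w + kf y z w x + (kf x y z w - kf y z w x + kf z w x y) := by abel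
    rw [e, h1, h2]; abel
  exact (neg_eq_of_add_eq_zero_right h3).symm

theorem kf_cyc (w x y z : A) : kf x y z w = -kf w x y z := by
  rw [kf_cyc' hA x y z w, neg_neg]

theorem kf23 (w x y z : A) : kf w y x z = -kf w x y z := by
  -- conjugate the swap of the last two arguments by a rotation
  have h1 : kf w y x z = -kf z w y x := by rw [kf_cyc' hA w y x z, neg_neg]
  rw [h1, kf34 hA z w x y, kf_cyc' hA w x y z, neg_neg]

theorem kf12 (w x y z : A) : kf x w y z = -kf w x y z := by
  have h1 : kf x w y z = -kf z x w y := by rw [kf_cyc' hA x w y z, neg_neg]
  rw [h1, kf23 hA z w x y, kf_cyc' hA w x y z, neg_neg]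

/-- `3 f` in terms of commutators with associators -/
theorem three_kf (w x y z : A) : (3 : ℤ) • kf w x y z =
    cm w (associator x y z) - cm x (associator w y z) + cm y (associator w x z)
      - cm z (associator w x y) := by
  rw [← kf_sum hA w x y z, kf_cyc hA w x y z, kf_cyc hA x y z w, kf_cyc hA w x y z]
  abel

/-- `(·, y, z)` is a derivation of the Jordan product. -/
theorem as_jp (w x y z : A) :
    associator (jp w x) y z = jp x (associator w y z) + jp w (associator x y z) := by
  have h := kf12 hA w x y z
  have e : associator (jp w x) y z = associator (w * x) y z + associator (x * w) y z := by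
    rw [jp, as_add_1]
  have e1 : associator (w * x) y z = kf w x y z + x * associator w y z + associator x y z * w := by
    simp only [kf]; abel
  have e2 : associator (x * w) y z = kf x w y z + w * associator x y z + associator w y z * x := by
    simp only [kf]; abel
  rw [e, e1, e2, h]; simp only [jp]; abel

theorem two_kf (w x y z : A) : (2 : ℤ) • kf w x y z =
    associator (cm w x) y z - cm x (associator w y z) + cm w (associator x y z) := by
  have h := kf12 hA w x y z
  have e : associator (cm w x) y z = associator (w * x) y z - associator (x * w) y z := by
    rw [cm, as_sub_1]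
  have e1 : associator (w * x) y z = kf w x y z + x * associator w y z + associator x y z * w := by
    simp only [kf]; abel
  have e2 : associator (x * w) y z = kf x w y z + w * associator x y z + associator w y z * x := by
    simp only [kf]; abel
  rw [e, e1, e2, h]; simp only [cm]; abel

theorem kf_eq (w x y z : A) : kf w x y z =
    associator (cm w x) y z + associator (cm y z) w x := by
  have h1 := two_kf hA w x y z
  have h2 := two_kf hA y z w x
  have h3 := three_kf hA w x y z
  have c1 : associator z w x = associator w x z := as_cyc hA z w x |>.symm
  have c2 : associator y w x = associator w x y := as_cyc hA y w x |>.symm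
  have e : kf y z w x = kf w x y z := by
    rw [kf_cyc hA x y z w, kf_cyc hA w x y z, neg_neg]
  rw [e, c1, c2] at h2
  have h4 : kf w x y z = (2 : ℤ) • kf w x y z + (2 : ℤ) • kf w x y z - (3 : ℤ) • kf w x y z := by
    abel
  have h5 : (2 : ℤ) • kf w x y z + (2 : ℤ) • kf w x y z - (3 : ℤ) • kf w x y z =
      (associator (cm w x) y z - cm x (associator w y z) + cm w (associator x y z)) +
      (associator (cm y z) w x - cm z (associator w x y) + cm y (associator w x z)) -
      (cm w (associator x y z) - cm x (associator w y z) + cm y (associator w x z)
      - cm z (associator w x y)) := by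
    rw [← h1, ← h2, ← h3]
  rw [h4, h5]; abel

/-- Leibniz rule for commutators with a Jordan product. -/
theorem cm_jp (x y z : A) : cm (jp x y) z = jp x (cm y z) + jp y (cm x z) := by
  have key : cm (jp x y) z - (jp x (cm y z) + jp y (cm x z)) =
      associator x y z + associator y x z + associator z x y + associator z y x
        - associator x z y - associator y z x := by
    simp only [cm, jp, associator_apply, mul_add, add_mul, mul_sub, sub_mul]; abel
  have c1 : associator z x y = associator x y z := (as_cyc hA z x y).symm
  have c2 : associator z y x = -associator x y z := as13 hA x y z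
  rw [as12 hA x y z, c1, c2, as23 hA x y z, as_cyc hA x y z] at key
  rw [← sub_eq_zero, key]; abel

/-- Jacobi identity with its correction term. -/
theorem jacobi (x y z : A) : cm (cm x y) z - cm (cm x z) y + cm (cm y z) x =
    (6 : ℤ) • associator x y z := by
  have key : cm (cm x y) z - cm (cm x z) y + cm (cm y z) x =
      associator x y z - associator y x z - associator x z y + associator z x y
       + associator y z x - associator z y x := by
    simp only [cm, associator_apply, mul_sub, sub_mul]; abel
  have c1 : associator z x y = associator x y z := (as_cyc hA z x y).symm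
  have c2 : associator z y x = -associator x y z := as13 hA x y z
  rw [key, as12 hA x y z, c1, c2, as23 hA x y z, as_cyc hA x y z]; abel

theorem as_aba (x y : A) : associator x y x = 0 := by
  rw [as23 hA x x y, hA.left, neg_zero]

theorem kf_yy34 (w x y : A) : kf w x y y = 0 := by
  simp [kf, hA.right]
theorem kf_yy23 (x y w : A) : kf x y y w = 0 := by
  rw [kf_cyc hA w x y y, kf_yy34 hA, neg_zero]
theorem kf_yy12 (y w x : A) : kf y y w x = 0 := by
  rw [kf_cyc hA x y y w, kf_yy23 hA, neg_zero]
theorem kf_yy14 (y w x : A) : kf y w x y = 0 := by
  rw [kf_cyc hA y y w x, kf_yy12 hA, neg_zero]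
theorem kf_yy13 (y w x : A) : kf y w y x = 0 := by
  rw [kf34 hA y w x y, kf_yy14 hA, neg_zero]

theorem kf_prod (x y z : A) : kf (x * y) y x z = associator x y z * cm x y := by
  have ha : associator y x z = -associator x y z := as12 hA x y z
  set a := associator x y z with ha0
  have f3 : associator (x * y) x z = -(a * x) := by
    have := kf_yy13 hA x y z
    simp only [kf, hA.left, mul_zero, ha, neg_mul] at this
    rw [sub_zero, sub_neg_eq_add] at this
    exact eq_neg_of_add_eq_zero_left this
  have f5 : associator (y * y) x z = -(y * a) - a * y := by
    have := kf_yy12 hA y x z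
    simp only [kf, ha, neg_mul, mul_neg] at this
    rw [← sub_eq_zero, ← this]; abel
  have f6 : associator (x * y * y) x z = -(y * a) * x - a * y * x := by
    have h0 : x * y * y = x * (y * y) := sub_eq_zero.mp (hA.right y x)
    have := kf_yy13 hA x (y * y) z
    simp only [kf, hA.left, mul_zero, f5, sub_mul] at this
    rw [h0, ← sub_eq_zero, ← this]; abel
  have f7 : associator y a x = -associator a y x := as12 hA a y x
  have : kf (x * y) y x z - a * cm x y = -associator y a x - associator a y x := by
    simp only [kf, f6, f3, ha, associator_apply, cm, mul_neg, neg_mul, mul_sub]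
    abel
  rw [← sub_eq_zero, this, f7]; abel

/-- `[x,y] ∘ (x,y,z) = 0` -/
theorem cm_jp_as (x y z : A) : jp (cm x y) (associator x y z) = 0 := by
  have h1 : kf (x * y) x y z = -(associator x y z * cm x y) := by
    rw [kf23 hA (x * y) y x z, kf_prod hA]
  have h2 : kf x (y * x) y z = -(associator x y z * cm x y) := by
    rw [kf12 hA (y * x) x y z, kf_prod hA y x z, as12 hA x y z, cm_anti y x]
    simp only [mul_neg, neg_mul, neg_neg]
  have f1 : associator (x * y) y z = y * associator x y z := by
    have := kf_yy23 hA x y z
    simp only [kf, hA.left, zero_mul, sub_zero] at this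
    exact sub_eq_zero.mp this
  have f2 : associator (y * x) y z = associator x y z * y := by
    have := kf_yy13 hA y x z
    simp only [kf, hA.left, mul_zero, sub_zero] at this
    exact sub_eq_zero.mp this
  have f3 : x * y * x = x * (y * x) := sub_eq_zero.mp (as_aba hA x y)
  have f4 : associator (associator x y z) y x = -associator x y (associator x y z) :=
    as13 hA x y (associator x y z)
  have e1 : kf (x * y) x y z = associator (x * (y * x)) y z - x * (y * associator x y z)
      - associator x y z * (x * y) := by
    rw [kf, f1, f3]
  have e2 : associator (x * (y * x)) y z = kf x (y * x) y z + (y * x) * associator x y z +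
      associator x y z * y * x := by
    rw [kf, f2]; abel
  rw [e1, e2, h2] at h1
  set a := associator x y z with ha
  have h5 : jp (cm x y) a = -(-(a * cm x y) + y * x * a + a * y * x - x * (y * a) - a * (x * y))
     + -(a * cm x y) + (associator a y x + associator x y a) := by
    simp only [jp, cm, associator_apply, mul_sub, sub_mul]; abel
  rw [h5, h1, f4]; abel

/-- linearisation of the previous identity -/
theorem r5 (x x' y y' z : A) :
    jp (cm x y) (associator x' y' z) + jp (cm x' y) (associator x y' z)
      + jp (cm x y') (associator x' y z) + jp (cm x' y') (associator x y z) = 0 := by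
  have hxy := cm_jp_as hA (x + x') (y + y') z
  have h1 := cm_jp_as hA x (y + y') z
  have h2 := cm_jp_as hA x' (y + y') z
  have h3 := cm_jp_as hA (x + x') y z
  have h4 := cm_jp_as hA (x + x') y' z
  have h5 := cm_jp_as hA x y z
  have h6 := cm_jp_as hA x y' z
  have h7 := cm_jp_as hA x' y z
  have h8 := cm_jp_as hA x' y' z
  simp only [cm_add_left, cm_add_right, as_add_1, as_add_2, jp_add_left, jp_add_right] at *
  have e := congrArg₂ (· - ·) (congrArg₂ (· - ·) (congrArg₂ (· - ·) (congrArg₂ (· - ·)
    hxy h1) h2) h3) h4
  have e2 := congrArg₂ (· + ·) (congrArg₂ (· + ·) (congrArg₂ (· + ·) (congrArg₂ (· + ·)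
    e h5) h6) h7) h8
  simp only [sub_zero, add_zero] at e2
  rw [← e2]; abel

end alt

end H70alt
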