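import Pool.Agent.H70alt.Torsion

/-!
A commutative alternative algebra of dimension 64 over any commutative ring in which `3 = 0`,
given by structure constants in the basis `e_I`, `I` a subset of `{0,..,5}` (coded by bits),
on which the element `tors` does not vanish.
-/

set_option autoImplicit false
set_option linter.unusedSimpArgs false

namespace H70alt

/-- table of the structure constants, two bits each -/
def tabN : ℕ :=
  0x400000000000000000000000000000020000000000000000000000000000000000000000000000000000000000000000000000000000000000000000000000500000000000000000000000000000021000000000000000000000000000000141400000000000000000000000000000000000000000000000000000000000a000000000000000000000000000000120000000000000000000000000000002800140000000000000000000000000000000000000000000000000000000004020200000000000000000000000000200202000000000000000000000000000000000000000000000000000000000100000000000000000000000000000002000000040000000000000000000000020000002000000000000000000000009400000028000000000000000000000100000001000000000000000000000000000000000000000000000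00000000000000000000000000000000000000000402a0000690000000000000000000002000000020000000000000000000000000000000000000000000000000000000000000000000000000000000000000080002a00960000000000000000000001000000000101000000000000000000020101020404040400000000000000000201010220202020000000000000000094010114288282280000000000000002000000000000000000000000000000010000000000000004000000000000000100000000000000200000000000000068000000000000002800000000000002000000000000000100000000000000000000000000000000000000000000000000000000000000000000000000000080150000000000006900000000000001000000000000000200000000000000000000000000000000000000000000000000000000000000000000000000000040001500000000009600000000000002000000000000000001010000000000010202010000000004040404000000000102020100000000202020200000000068020228000000002882822800000000000000000000000000000000000000080000000a0000000a000000000000001000000012000000120000000000000000000000000000000000000000000000000000020200000202000000000000060000000108000001080000020400002200000001100000011000000220000028280000824200008242000014280000000000010002000100020000000000090000000200080002000800010004001100000002001000020010000100200014002800410042004100420028002800000000000000000000000000000000080101000a00000a0a00000a000a0a001001010012000012120000120012120000000000000000000000000000000000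

/-- structure constants `0, 1, 2` -/
def cN (I J : ℕ) : ℕ := (tabN >>> (2 * (64 * I + J))) % 4

/-- union of subsets -/
def opF (I J : Fin 64) : Fin 64 :=
  ⟨I.val ||| J.val, Nat.or_lt_two_pow (n := 6) I.isLt J.isLt⟩

/-- bounded check -/
def allB (f : ℕ → Bool) : ℕ → Bool
  | 0 => true
  | n + 1 => f n && allB f n

theorem allB_spec (f : ℕ → Bool) (n : ℕ) (h : allB f n = true) : ∀ i, i < n → f i = true := by
  induction n with
  | zero => intro i hi; omega
  | succ n ih =>
    rw [allB, Bool.and_eq_true] at h
    intro i hi
    rcases Nat.lt_succ_iff_lt_or_eq.mp hi with h' | h'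
    · exact ih h.2 i h'
    · rw [h']; exact h.1

theorem chk_comm : allB (fun i => allB (fun j => Nat.beq (cN i j) (cN j i)) 64) 64 = true := by
  decide +kernel

theorem chk_jac : allB (fun i => allB (fun j => allB (fun l =>
    Nat.beq ((cN i j * cN (i ||| j) l + cN j l * cN (j ||| l) i + cN l i * cN (l ||| i) j) % 3) 0)
    64) 64) 64 = true := by
  decide +kernel

theorem cN_comm (i j : Fin 64) : cN i j = cN j i := by
  have h := allB_spec _ 64 (allB_spec _ 64 chk_comm i i.isLt) j j.isLt
  exact Nat.eq_of_beq_eq_true h

theorem cN_jac (i j l : Fin 64) :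
    (cN i j * cN (opF i j) l + cN j l * cN (opF j l) i + cN l i * cN (opF l i) j) % 3 = 0 := by
  have h := allB_spec _ 64 (allB_spec _ 64 (allB_spec _ 64 chk_jac i i.isLt) j j.isLt) l l.isLt
  exact Nat.eq_of_beq_eq_true h

theorem opF_comm (i j : Fin 64) : opF i j = opF j i := by
  ext; simp only [opF, Nat.or_comm]
theorem opF_assoc (i j l : Fin 64) : opF (opF i j) l = opF i (opF j l) := by
  ext; simp only [opF, Nat.or_assoc]

/-- the underlying module of the model -/
def Mdl (k : Type*) : Type _ := Fin 64 → k

section
variable {k : Type*} [CommRing k]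

instance : AddCommGroup (Mdl k) := inferInstanceAs (AddCommGroup (Fin 64 → k))

instance {P : Type*} [CommRing P] [Algebra P k] : Module P (Mdl k) :=
  inferInstanceAs (Module P (Fin 64 → k))

instance : Mul (Mdl k) :=
  ⟨fun x y l => ∑ i, ∑ j, if opF i j = l then (cN i j : k) * (x i * y j) else 0⟩

theorem mdl_mul_apply (x y : Mdl k) (l : Fin 64) :
    (x * y) l = ∑ i, ∑ j, if opF i j = l then (cN i j : k) * (x i * y j) else 0 := rfl

theorem mdl_add_apply (x y : Mdl k) (l : Fin 64) : (x + y) l = x l + y l := rfl
theorem mdl_zero_apply (l : Fin 64) : (0 : Mdl k) l = 0 := rfl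
theorem mdl_smul_apply {P : Type*} [CommRing P] [Algebra P k] (r : P) (x : Mdl k) (l : Fin 64) :
    (r • x) l = r • x l := rfl

omit [CommRing k] in
theorem mdl_ext {x y : Mdl k} (h : ∀ l, x l = y l) : x = y := funext h

instance : NonUnitalNonAssocRing (Mdl k) where
  __ := (inferInstance : AddCommGroup (Mdl k))
  left_distrib x y z := by
    refine mdl_ext fun l => ?_
    simp only [mdl_mul_apply, mdl_add_apply, ← Finset.sum_add_distrib]
    refine Finset.sum_congr rfl fun i _ => Finset.sum_congr rfl fun j _ => ?_
    split_ifs <;> ring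
  right_distrib x y z := by
    refine mdl_ext fun l => ?_
    simp only [mdl_mul_apply, mdl_add_apply, ← Finset.sum_add_distrib]
    refine Finset.sum_congr rfl fun i _ => Finset.sum_congr rfl fun j _ => ?_
    split_ifs <;> ring
  zero_mul x := by
    refine mdl_ext fun l => ?_
    simp only [mdl_mul_apply, mdl_zero_apply, zero_mul, mul_zero, ite_self, Finset.sum_const_zero]
  mul_zero x := by
    refine mdl_ext fun l => ?_
    simp only [mdl_mul_apply, mdl_zero_apply, zero_mul, mul_zero, ite_self, Finset.sum_const_zero]

instance {P : Type*} [CommRing P] [Algebra P k] : IsScalarTower P (Mdl k) (Mdl k) := ⟨by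
  intro r x y
  refine mdl_ext fun l => ?_
  simp only [smul_eq_mul, mdl_mul_apply, mdl_smul_apply, Finset.smul_sum]
  refine Finset.sum_congr rfl fun i _ => Finset.sum_congr rfl fun j _ => ?_
  split_ifs
  · simp only [Algebra.smul_def]; ring
  · rw [smul_zero]⟩

instance {P : Type*} [CommRing P] [Algebra P k] : SMulCommClass P (Mdl k) (Mdl k) := ⟨by
  intro r x y
  refine mdl_ext fun l => ?_
  simp only [smul_eq_mul, mdl_mul_apply, mdl_smul_apply, Finset.smul_sum]
  refine Finset.sum_congr rfl fun i _ => Finset.sum_congr rfl fun j _ => ?_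
  split_ifs
  · simp only [Algebra.smul_def]; ring
  · rw [smul_zero]⟩

theorem mdl_comm (x y : Mdl k) : x * y = y * x := by
  refine mdl_ext fun l => ?_
  rw [mdl_mul_apply, mdl_mul_apply, Finset.sum_comm]
  refine Finset.sum_congr rfl fun i _ => Finset.sum_congr rfl fun j _ => ?_
  rw [opF_comm j i, cN_comm j i, mul_comm (x j)]

theorem mdl_mul3 (x y z : Mdl k) (l : Fin 64) :
    (x * y * z) l = ∑ i, ∑ j, ∑ m, if opF (opF i j) m = l then
      ((cN i j * cN (opF i j) m : ℕ) : k) * (x i * y j * z m) else 0 := by
  rw [mdl_mul_apply]
  have h : ∀ p m, (if opF p m = l then (cN p m : k) * ((x * y) p * z m) else 0) =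
      ∑ i, ∑ j, if opF i j = p then (if opF p m = l then
        ((cN i j * cN p m : ℕ) : k) * (x i * y j * z m) else 0) else 0 := by
    intro p m
    rw [mdl_mul_apply]
    split_ifs with h
    · rw [Finset.sum_mul, Finset.mul_sum]
      refine Finset.sum_congr rfl fun i _ => ?_
      rw [Finset.sum_mul, Finset.mul_sum]
      refine Finset.sum_congr rfl fun j _ => ?_
      split_ifs
      · push_cast; ring
      · ring
    · simp
  simp only [h]
  rw [Finset.sum_comm]
  have h2 : ∀ m, (∑ p, ∑ i, ∑ j, if opF i j = p then (if opF p m = l then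
        ((cN i j * cN p m : ℕ) : k) * (x i * y j * z m) else 0) else 0) =
      ∑ i, ∑ j, if opF (opF i j) m = l then
        ((cN i j * cN (opF i j) m : ℕ) : k) * (x i * y j * z m) else 0 := by
    intro m
    rw [Finset.sum_comm]
    refine Finset.sum_congr rfl fun i _ => ?_
    rw [Finset.sum_comm]
    refine Finset.sum_congr rfl fun j _ => ?_
    rw [Finset.sum_ite_eq Finset.univ (opF i j)]
    simp
  simp only [h2]
  rw [Finset.sum_comm]
  refine Finset.sum_congr rfl fun i _ => ?_
  rw [Finset.sum_comm]

theorem sum3_cyc {M : Type*} [AddCommMonoid M] (f : Fin 64 → Fin 64 → Fin 64 → M) :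
    ∑ i, ∑ j, ∑ m, f i j m = ∑ i, ∑ j, ∑ m, f j m i := by
  symm
  rw [Finset.sum_comm]
  refine Finset.sum_congr rfl fun j _ => ?_
  rw [Finset.sum_comm]

theorem mdl_jac (h3 : (3 : k) = 0) (x y z : Mdl k) :
    x * y * z + y * z * x + z * x * y = 0 := by
  refine mdl_ext fun l => ?_
  rw [mdl_add_apply, mdl_add_apply, mdl_zero_apply, mdl_mul3, mdl_mul3, mdl_mul3]
  rw [sum3_cyc (fun i j m => if opF (opF i j) m = l then
      ((cN i j * cN (opF i j) m : ℕ) : k) * (y i * z j * x m) else 0)]
  rw [sum3_cyc (fun i j m => if opF (opF i j) m = l then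
      ((cN i j * cN (opF i j) m : ℕ) : k) * (z i * x j * y m) else 0)]
  rw [sum3_cyc (fun i j m => if opF (opF j m) i = l then
      ((cN j m * cN (opF j m) i : ℕ) : k) * (z j * x m * y i) else 0)]
  simp only [← Finset.sum_add_distrib]
  refine Finset.sum_eq_zero fun i _ => Finset.sum_eq_zero fun j _ =>
    Finset.sum_eq_zero fun m _ => ?_
  have a1 : opF (opF j m) i = opF (opF i j) m := by
    rw [opF_comm (opF j m) i, ← opF_assoc]
  have a2 : opF (opF m i) j = opF (opF i j) m := by
    rw [opF_assoc m i j, opF_comm m (opF i j)]
  have hq := cN_jac i j m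
  rw [a1, a2]
  split_ifs
  · obtain ⟨q, hq⟩ := Nat.dvd_of_mod_eq_zero hq
    have hc : ((cN i j * cN (opF i j) m + cN j m * cN (opF j m) i +
        cN m i * cN (opF m i) j : ℕ) : k) = 0 := by
      rw [hq]; push_cast; rw [h3, zero_mul]
    calc _ = ((cN i j * cN (opF i j) m + cN j m * cN (opF j m) i +
        cN m i * cN (opF m i) j : ℕ) : k) * (x i * y j * z m) := by push_cast; ring
      _ = 0 := by rw [hc, zero_mul]
  · simp

theorem mdl_alt (h3 : (3 : k) = 0) : IsAlt (Mdl k) := by
  have h3' : ∀ v : Mdl k, v + v + v = 0 := by
    intro v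
    refine mdl_ext fun l => ?_
    rw [mdl_add_apply, mdl_add_apply, mdl_zero_apply]
    calc v l + v l + v l = 3 * v l := by ring
      _ = 0 := by rw [h3, zero_mul]
  have hl : ∀ x y : Mdl k, associator x x y = 0 := by
    intro x y
    have h := mdl_jac h3 x x y
    rw [mdl_comm (x * y) x, mdl_comm y x, mdl_comm (x * y) x] at h
    have h2 := h3' (x * (x * y))
    rw [associator_apply, sub_eq_zero]
    have : x * x * y = x * x * y + x * (x * y) + x * (x * y)
        - (x * (x * y) + x * (x * y) + x * (x * y)) + x * (x * y) := by abel
    rw [this, h, h2]; abel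
  refine ⟨hl, fun x y => ?_⟩
  have h := hl x y
  rw [associator_apply] at h ⊢
  rw [mdl_comm (y * x) x, mdl_comm y x, mdl_comm y (x * x), ← neg_sub, h, neg_zero]

/-- basis vectors of the model -/
def ebas (k : Type*) [CommRing k] (i : Fin 64) : Mdl k := (Pi.single i 1 : Fin 64 → k)

theorem ebas_mul (i j : Fin 64) :
    ebas k i * ebas k j = (cN i j) • ebas k (opF i j) := by
  refine mdl_ext fun l => ?_
  rw [mdl_mul_apply]
  have h1 : (cN i j • ebas k (opF i j)) l = (cN i j : k) * (ebas k (opF i j) l) := by
    rw [← nsmul_eq_mul]; rfl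
  rw [h1]
  simp only [ebas, Pi.single_apply]
  rw [Finset.sum_eq_single i, Finset.sum_eq_single j]
  · simp only [if_true, mul_one, mul_ite, mul_zero]
    by_cases h : opF i j = l
    · rw [if_pos h, if_pos h.symm]
    · rw [if_neg h, if_neg (fun h' => h h'.symm)]
  · intro b _ hb; simp [hb]
  · simp
  · intro b _ hb; simp [hb]
  · simp

theorem ebas_assoc (i j l m : Fin 64) (p q : ℕ) (h1 : opF (opF i j) l = m)
    (hp : cN i j * cN (opF i j) l = p) (hq : cN j l * cN i (opF j l) = q) :
    associator (ebas k i) (ebas k j) (ebas k l) = ((p : ℤ) - q) • ebas k m := by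
  rw [associator_apply, ebas_mul i j, ebas_mul j l, smul_mul_assoc, mul_smul_comm, ebas_mul,
    ebas_mul, ← opF_assoc, h1, smul_smul, smul_smul, hp, hq, sub_smul, natCast_zsmul,
    natCast_zsmul]

theorem mdl_cm (x y : Mdl k) : cm x y = 0 := by
  rw [cm, mdl_comm x y, sub_self]

theorem mdl_kf (h3 : (3 : k) = 0) (w x y z : Mdl k) : kf w x y z = 0 := by
  rw [kf_eq (mdl_alt h3), mdl_cm, mdl_cm]
  simp [associator_apply]

theorem mdl_ld (h3 : (3 : k) = 0) (x y z t w : Mdl k) : ld x y z t w = 0 := by
  rw [ld, mdl_kf h3, mdl_kf h3, mdl_kf h3, jp_zero_right, jp_zero_right, sub_zero, sub_zero]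

/-- on six basis vectors of the model the element `tors` takes the value `e_63`. -/
theorem mdl_tors (h3 : (3 : k) = 0) :
    tors (ebas k 1) (ebas k 2) (ebas k 4) (ebas k 8) (ebas k 16) (ebas k 32) = ebas k 63 := by
  have a2 := ebas_assoc (k := k) 1 2 4 7 0 2 (by decide +kernel) (by decide +kernel)
    (by decide +kernel)
  have a3 := ebas_assoc (k := k) 1 2 8 11 0 2 (by decide +kernel) (by decide +kernel)
    (by decide +kernel)
  have a4 := ebas_assoc (k := k) 1 2 16 19 0 2 (by decide +kernel) (by decide +kernel)
    (by decide +kernel)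
  have a5 := ebas_assoc (k := k) 1 2 32 35 0 2 (by decide +kernel) (by decide +kernel)
    (by decide +kernel)
  have b2 := ebas_assoc (k := k) 8 16 32 56 2 0 (by decide +kernel) (by decide +kernel)
    (by decide +kernel)
  have b3 := ebas_assoc (k := k) 4 16 32 52 2 0 (by decide +kernel) (by decide +kernel)
    (by decide +kernel)
  have b4 := ebas_assoc (k := k) 4 8 32 44 0 2 (by decide +kernel) (by decide +kernel)
    (by decide +kernel)
  have b5 := ebas_assoc (k := k) 4 8 16 28 0 2 (by decide +kernel) (by decide +kernel)
    (by decide +kernel)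
  have m2 : ebas k 7 * ebas k 56 = 0 := by
    rw [ebas_mul, show cN (7 : Fin 64) (56 : Fin 64) = 0 by decide +kernel, zero_smul]
  have m3 : ebas k 11 * ebas k 52 = 0 := by
    rw [ebas_mul, show cN (11 : Fin 64) (52 : Fin 64) = 0 by decide +kernel, zero_smul]
  have m4 : ebas k 19 * ebas k 44 = (2 : ℤ) • ebas k 63 := by
    rw [ebas_mul, show cN (19 : Fin 64) (44 : Fin 64) = 2 by decide +kernel,
      show opF 19 44 = 63 by decide +kernel]
    exact (natCast_zsmul (ebas k 63) 2).symm
  have m5 : ebas k 35 * ebas k 28 = (1 : ℤ) • ebas k 63 := by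
    rw [ebas_mul, show cN (35 : Fin 64) (28 : Fin 64) = 1 by decide +kernel,
      show opF 35 28 = 63 by decide +kernel, one_smul, one_smul]
  have h3' : (3 : ℤ) • ebas k 63 = 0 := by
    refine mdl_ext fun l => ?_
    have : ((3 : ℤ) • ebas k 63) l = (3 : k) * ebas k 63 l := by
      have h : ((3 : ℤ) • ebas k 63) l = (3 : ℤ) • (ebas k 63 l) := rfl
      rw [h, zsmul_eq_mul]; norm_num
    rw [this, h3, zero_mul, mdl_zero_apply]
  have jpc : ∀ x y : Mdl k, jp x y = (2 : ℤ) • (x * y) := by
    intro x y; rw [jp, mdl_comm y x, two_smul]
  rw [tors, a2, a3, a4, a5, b2, b3, b4, b5]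
  simp only [mdl_ld h3, mdl_kf h3, jpc, smul_mul_assoc, mul_smul_comm, m2, m3, m4,
    m5, smul_zero, smul_smul, mul_zero]
  have : ∀ v : Mdl k, (3 : ℤ) • v = 0 → (16 : ℤ) • v = v := by
    intro v hv
    have : (16 : ℤ) • v = (5 : ℤ) • ((3 : ℤ) • v) + v := by
      rw [smul_smul]; abel
    rw [this, hv, smul_zero, zero_add]
  conv_rhs => rw [← this _ h3']
  rw [← sub_eq_zero]
  abel_nf

end

end H70alt
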