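import Pool.Agent.H70alt.Ident

/-!
In every alternative ring the multilinear element `tors` of degree six satisfies `3 • tors = 0`.
-/

set_option autoImplicit false
set_option linter.unusedSimpArgs false

namespace H70alt

variable {A : Type*} [NonUnitalNonAssocRing A]

/-- defect of the Leibniz rule of the Kleinfeld function on a Jordan product -/
def ld (x y z t w : A) : A :=
  kf (jp x y) z t w - jp x (kf y z t w) - jp y (kf x z t w)

theorem three_ld (hA : IsAlt A) (x y z t w : A) : (3 : ℤ) • ld x y z t w =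
    jp (cm x z) (associator y t w) - jp (cm x t) (associator y z w)
    + jp (cm x w) (associator y z t) + jp (cm y z) (associator x t w)
    - jp (cm y t) (associator x z w) + jp (cm y w) (associator x z t) := by
  have h1 := three_kf hA (jp x y) z t w
  have h2 := congrArg (jp x) (three_kf hA y z t w)
  have h3 := congrArg (jp y) (three_kf hA x z t w)
  rw [jp_zsmul_right] at h2 h3
  simp only [as_jp hA, cm_jp hA, cm_anti z (jp _ _ + jp _ _), cm_anti t (jp _ _ + jp _ _),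
    cm_anti w (jp _ _ + jp _ _), cm_add_left] at h1
  simp only [jp_add_right, jp_sub_right] at h2 h3
  rw [ld, smul_sub, smul_sub, h1, h2, h3]
  simp only [cm_anti z y, cm_anti z x, cm_anti t y, cm_anti t x, cm_anti w y, cm_anti w x,
    cm_anti z (associator _ _ _), cm_anti t (associator _ _ _), cm_anti w (associator _ _ _),
    jp_neg_right, jp_comm (associator _ _ _)]
  abel

theorem relS (hA : IsAlt A) (u y X Y z : A) :
    (3 : ℤ) • jp (cm u y) (associator X Y z)
    + jp (cm u X) (associator y Y z) - jp (cm u Y) (associator y X z)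
    + jp (cm u z) (associator y X Y)
    - jp (cm y X) (associator u Y z) + jp (cm y Y) (associator u X z)
    - jp (cm y z) (associator u X Y)
    + jp (cm X Y) (associator u y z) - jp (cm X z) (associator u y Y)
    + jp (cm Y z) (associator u y X) = 0 := by
  have h1 := r5 hA u X y Y z
  have h2 := r5 hA u Y y z X
  have h3 := r5 hA u z y X Y
  rw [cm_anti X y, as12 hA y X z] at h1
  rw [as_cyc hA X Y z, cm_anti Y y, as23 hA u X z, (as_cyc hA Y y X).symm] at h2
  rw [← as_cyc hA z X Y, cm_anti z y, ← as_cyc hA z y Y, cm_anti z X] at h3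
  simp only [jp_neg_left, jp_neg_right, neg_neg] at h1 h2 h3
  linear_combination (norm := abel) h1 + h2 + h3

theorem relW (hA : IsAlt A) (u x y e g : A) :
    jp (cm u y) (associator x e g) - jp (cm u x) (associator y e g)
    + jp (cm u e) (associator x y g) - jp (cm u g) (associator x y e)
    + jp (cm x y) (associator u e g) - jp (cm e g) (associator u x y) = 0 := by
  have h1 := r5 hA u x y e g
  have h2 := r5 hA u e x g y
  rw [as_cyc hA y e g, cm_anti e x, as23 hA u y g, (as_cyc hA e x y).symm] at h2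
  simp only [jp_neg_left, jp_neg_right, neg_neg] at h1 h2
  linear_combination (norm := abel) h1 - h2

theorem relF1 (hA : IsAlt A) (w x y z : A) : associator (cm w x) y z + associator (cm y z) w x =
    kf w x y z := (kf_eq hA w x y z).symm
theorem relF2 (hA : IsAlt A) (w x y z : A) : associator (cm w y) x z + associator (cm x z) w y =
    -kf w x y z := by
  rw [← kf_eq hA w y x z, kf23 hA w x y z]
theorem relF3 (hA : IsAlt A) (w x y z : A) : associator (cm w z) x y + associator (cm x y) w z =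
    kf w x y z := by
  rw [← kf_eq hA w z x y, kf23 hA w x z y, kf34 hA w x y z, neg_neg]

theorem three_ld_sum (hA : IsAlt A) (u p q r s : A) :
    (3 : ℤ) • (ld u p q r s - ld u q p r s + ld u r p q s - ld u s p q r) =
    -((3 : ℤ) • (jp (cm u p) (associator q r s) - jp (cm u q) (associator p r s)
      + jp (cm u r) (associator p q s) - jp (cm u s) (associator p q r)))
    + (2 : ℤ) • (jp (cm p q) (associator u r s) - jp (cm p r) (associator u q s)
      + jp (cm p s) (associator u q r) + jp (cm q r) (associator u p s)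
      - jp (cm q s) (associator u p r) + jp (cm r s) (associator u p q)) := by
  have h1 := three_ld hA u p q r s
  have h2 := three_ld hA u q p r s
  have h3 := three_ld hA u r p q s
  have h4 := three_ld hA u s p q r
  rw [as12 hA p q r, as12 hA p q s, cm_anti q p] at h2
  rw [as12 hA q r s, as12 hA p r s, ← as_cyc hA r p q, cm_anti r p, cm_anti r q] at h3
  rw [← as_cyc hA s q r, ← as_cyc hA s p r, ← as_cyc hA s p q, cm_anti s p, cm_anti s q,
    cm_anti s r] at h4
  simp only [jp_neg_left, jp_neg_right, neg_neg] at h1 h2 h3 h4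
  linear_combination (norm := abel) h1 - h2 + h3 - h4

/-- the torsion element, as a function of six elements of an alternative ring -/
def tors (x0 x1 x2 x3 x4 x5 : A) : A :=
  (2 : ℤ) • (jp (associator x0 x1 x2) (associator x3 x4 x5) -
    jp (associator x0 x1 x3) (associator x2 x4 x5) +
    jp (associator x0 x1 x4) (associator x2 x3 x5) -
    jp (associator x0 x1 x5) (associator x2 x3 x4))
  + (2 : ℤ) • jp (cm x0 x1) (kf x2 x3 x4 x5)
  + (ld (cm x0 x1) x2 x3 x4 x5 - ld (cm x0 x1) x3 x2 x4 x5 + ld (cm x0 x1) x4 x2 x3 x5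
      - ld (cm x0 x1) x5 x2 x3 x4)
  + ld (cm x0 x2) x1 x3 x4 x5
  - ld (cm x0 x3) x1 x2 x4 x5
  + ld (cm x0 x4) x1 x2 x3 x5
  - ld (cm x0 x5) x1 x2 x3 x4
  - ld (cm x1 x2) x0 x3 x4 x5
  + ld (cm x1 x3) x0 x2 x4 x5
  - ld (cm x1 x4) x0 x2 x3 x5
  + ld (cm x1 x5) x0 x2 x3 x4

set_option maxHeartbeats 4000000 in
theorem three_tors (hA : IsAlt A) (x0 x1 x2 x3 x4 x5 : A) :
    (3 : ℤ) • tors x0 x1 x2 x3 x4 x5 = 0 := by
  have hsum := three_ld_sum hA (cm x0 x1) x2 x3 x4 x5
  have l0 := three_ld hA (cm x0 x2) x1 x3 x4 x5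
  have l1 := three_ld hA (cm x0 x3) x1 x2 x4 x5
  have l2 := three_ld hA (cm x0 x4) x1 x2 x3 x5
  have l3 := three_ld hA (cm x0 x5) x1 x2 x3 x4
  have l4 := three_ld hA (cm x1 x2) x0 x3 x4 x5
  have l5 := three_ld hA (cm x1 x3) x0 x2 x4 x5
  have l6 := three_ld hA (cm x1 x4) x0 x2 x3 x5
  have l7 := three_ld hA (cm x1 x5) x0 x2 x3 x4
  have f1 := congrArg (jp (cm x0 x1)) (relF1 hA x2 x3 x4 x5)
  have f2 := congrArg (jp (cm x0 x1)) (relF2 hA x2 x3 x4 x5)
  have f3 := congrArg (jp (cm x0 x1)) (relF3 hA x2 x3 x4 x5)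
  have g1_0 := congrArg (jp (cm x2 x3)) (relF1 hA x0 x1 x4 x5)
  have g2_0 := congrArg (jp (cm x2 x3)) (relF2 hA x0 x1 x4 x5)
  have g3_0 := congrArg (jp (cm x2 x3)) (relF3 hA x0 x1 x4 x5)
  have w0 := relW hA (cm x2 x3) x0 x1 x4 x5
  have g1_1 := congrArg (jp (cm x2 x4)) (relF1 hA x0 x1 x3 x5)
  have g2_1 := congrArg (jp (cm x2 x4)) (relF2 hA x0 x1 x3 x5)
  have g3_1 := congrArg (jp (cm x2 x4)) (relF3 hA x0 x1 x3 x5)
  have w1 := relW hA (cm x2 x4) x0 x1 x3 x5
  have g1_2 := congrArg (jp (cm x2 x5)) (relF1 hA x0 x1 x3 x4)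
  have g2_2 := congrArg (jp (cm x2 x5)) (relF2 hA x0 x1 x3 x4)
  have g3_2 := congrArg (jp (cm x2 x5)) (relF3 hA x0 x1 x3 x4)
  have w2 := relW hA (cm x2 x5) x0 x1 x3 x4
  have g1_3 := congrArg (jp (cm x3 x4)) (relF1 hA x0 x1 x2 x5)
  have g2_3 := congrArg (jp (cm x3 x4)) (relF2 hA x0 x1 x2 x5)
  have g3_3 := congrArg (jp (cm x3 x4)) (relF3 hA x0 x1 x2 x5)
  have w3 := relW hA (cm x3 x4) x0 x1 x2 x5
  have g1_4 := congrArg (jp (cm x3 x5)) (relF1 hA x0 x1 x2 x4)
  have g2_4 := congrArg (jp (cm x3 x5)) (relF2 hA x0 x1 x2 x4)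
  have g3_4 := congrArg (jp (cm x3 x5)) (relF3 hA x0 x1 x2 x4)
  have w4 := relW hA (cm x3 x5) x0 x1 x2 x4
  have g1_5 := congrArg (jp (cm x4 x5)) (relF1 hA x0 x1 x2 x3)
  have g2_5 := congrArg (jp (cm x4 x5)) (relF2 hA x0 x1 x2 x3)
  have g3_5 := congrArg (jp (cm x4 x5)) (relF3 hA x0 x1 x2 x3)
  have w5 := relW hA (cm x4 x5) x0 x1 x2 x3
  have j0 := congrArg (fun v => jp v (associator x3 x4 x5)) (jacobi hA x0 x1 x2)
  have j1 := congrArg (fun v => jp v (associator x2 x4 x5)) (jacobi hA x0 x1 x3)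
  have j2 := congrArg (fun v => jp v (associator x2 x3 x5)) (jacobi hA x0 x1 x4)
  have j3 := congrArg (fun v => jp v (associator x2 x3 x4)) (jacobi hA x0 x1 x5)
  have j4 := congrArg (fun v => jp v (associator x0 x1 x5)) (jacobi hA x2 x3 x4)
  have j5 := congrArg (fun v => jp v (associator x0 x1 x4)) (jacobi hA x2 x3 x5)
  have j6 := congrArg (fun v => jp v (associator x0 x1 x3)) (jacobi hA x2 x4 x5)
  have j7 := congrArg (fun v => jp v (associator x0 x1 x2)) (jacobi hA x3 x4 x5)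
  have j8 := congrArg (fun v => jp v (associator x1 x4 x5)) (jacobi hA x0 x2 x3)
  have j9 := congrArg (fun v => jp v (associator x1 x3 x5)) (jacobi hA x0 x2 x4)
  have j10 := congrArg (fun v => jp v (associator x1 x3 x4)) (jacobi hA x0 x2 x5)
  have j11 := congrArg (fun v => jp v (associator x1 x2 x5)) (jacobi hA x0 x3 x4)
  have j12 := congrArg (fun v => jp v (associator x1 x2 x4)) (jacobi hA x0 x3 x5)
  have j13 := congrArg (fun v => jp v (associator x1 x2 x3)) (jacobi hA x0 x4 x5)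
  have j14 := congrArg (fun v => jp v (associator x0 x4 x5)) (jacobi hA x1 x2 x3)
  have j15 := congrArg (fun v => jp v (associator x0 x3 x5)) (jacobi hA x1 x2 x4)
  have j16 := congrArg (fun v => jp v (associator x0 x3 x4)) (jacobi hA x1 x2 x5)
  have j17 := congrArg (fun v => jp v (associator x0 x2 x5)) (jacobi hA x1 x3 x4)
  have j18 := congrArg (fun v => jp v (associator x0 x2 x4)) (jacobi hA x1 x3 x5)
  have j19 := congrArg (fun v => jp v (associator x0 x2 x3)) (jacobi hA x1 x4 x5)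
  have s0 := relS hA (cm x0 x2) x1 x3 x4 x5
  have s1 := relS hA (cm x0 x3) x1 x2 x4 x5
  have s2 := relS hA (cm x0 x4) x1 x2 x3 x5
  have s3 := relS hA (cm x0 x5) x1 x2 x3 x4
  have s4 := relS hA (cm x1 x2) x0 x3 x4 x5
  have s5 := relS hA (cm x1 x3) x0 x2 x4 x5
  have s6 := relS hA (cm x1 x4) x0 x2 x3 x5
  have s7 := relS hA (cm x1 x5) x0 x2 x3 x4
  simp only [jp_add_right, jp_neg_right] at f1 f2 f3 g1_0 g2_0 g3_0 g1_1 g2_1 g3_1 g1_2 g2_2 g3_2 g1_3 g2_3 g3_3 g1_4 g2_4 g3_4 g1_5 g2_5 g3_5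
  simp only [jp_add_left, jp_sub_left, jp_zsmul_left] at j0 j1 j2 j3 j4 j5 j6 j7 j8 j9 j10 j11 j12 j13 j14 j15 j16 j17 j18 j19
  simp only [jp_comm (associator x1 x2 x3) (associator x0 x4 x5),
    jp_comm (associator x1 x2 x4) (associator x0 x3 x5),
    jp_comm (associator x1 x2 x5) (associator x0 x3 x4),
    jp_comm (associator x1 x3 x4) (associator x0 x2 x5),
    jp_comm (associator x1 x3 x5) (associator x0 x2 x4),
    jp_comm (associator x1 x4 x5) (associator x0 x2 x3),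
    jp_comm (associator x2 x3 x4) (associator x0 x1 x5),
    jp_comm (associator x2 x3 x5) (associator x0 x1 x4),
    jp_comm (associator x2 x4 x5) (associator x0 x1 x3),
    jp_comm (associator x3 x4 x5) (associator x0 x1 x2)] at j0 j1 j2 j3 j4 j5 j6 j7 j8 j9 j10 j11 j12 j13 j14 j15 j16 j17 j18 j19
  unfold tors
  linear_combination (norm := abel) hsum + l0 - l1 + l2 - l3 - l4 + l5 - l6 + l7 - (2 : ℤ) • f1 + (2 : ℤ) • f2
    - (2 : ℤ) • f3 + (2 : ℤ) • g1_0 + g2_0 - g3_0 + (2 : ℤ) • w0 - (2 : ℤ) • g1_1 - g2_1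
    + g3_1 - (2 : ℤ) • w1 + (2 : ℤ) • g1_2 + g2_2 - g3_2 + (2 : ℤ) • w2 + (2 : ℤ) • g1_3
    + g2_3 - g3_3 + (2 : ℤ) • w3 - (2 : ℤ) • g1_4 - g2_4 + g3_4 - (2 : ℤ) • w4
    + (2 : ℤ) • g1_5 + g2_5 - g3_5 + (2 : ℤ) • w5 - (3 : ℤ) • j0 + (3 : ℤ) • j1
    - (3 : ℤ) • j2 + (3 : ℤ) • j3 - (2 : ℤ) • j4 + (2 : ℤ) • j5 - (2 : ℤ) • j6
    + (2 : ℤ) • j7 + (2 : ℤ) • j8 - (2 : ℤ) • j9 + (2 : ℤ) • j10 + (2 : ℤ) • j11
    - (2 : ℤ) • j12 + (2 : ℤ) • j13 - (2 : ℤ) • j14 + (2 : ℤ) • j15 - (2 : ℤ) • j16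
    - (2 : ℤ) • j17 + (2 : ℤ) • j18 - (2 : ℤ) • j19 - s0 + s1 - s2 + s3 + s4 - s5 + s6
    - s7

end H70alt
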